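import Mathlib
import Pool.Agent.KS6_58.KD.D1

/-!
# When is the Kesten condition necessary for the diffraction condition?

Circle map sequences with rotation number `γ` (irrational), arc length `D` and phase `x₀`.
Rational arc lengths always satisfy the diffraction condition, and so do those with
`D = j γ + l` (Kesten condition). For every irrational `γ` we determine for which arc lengths the
Kesten condition is necessary:

* for almost every `D` the diffraction measure has no Bragg peak outside the origin, so the exceptional
  arc lengths (irrational, Kesten condition fails, diffraction condition holds) form a null set;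
* if `γ` is badly approximable there are none: the diffraction condition holds exactly for rational `D`
  and for `D` with the Kesten condition, and in all other cases there is no Bragg peak outside the origin;
* if `γ` is not badly approximable then every interval contains uncountably many exceptional arc
  lengths, even with `1, γ, D` linearly independent over the rationals, for all phases at once.

Proof. Let `κ² = (1-D)² + D²`. An atom of the diffraction measure at `s ≠ 0` gives (mean ergodic theorem
for the rotation weighted with `exp(-2πi s r)`, `r` the gap function) a measurable solution of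
`exp(-2πi s r(x)) = u(x+γ) / u(x)`, so `lam exp(-2πi τ 1_[0,D))` is a coboundary, with
`τ = s (2D-1)/κ`; if `exp(-2πi τ) = 1` then `D` is rational. If `exp(-2πi τ) ≠ 1`, then summing along
denominators `q` and shifting by a small multiple of `1/q` shows that `D` is very close to
`{k γ : |k| < q}` for all large `q`; this is a null set of `D`, and for badly approximable `γ` it
contains `ℤγ + ℤ` only. Conversely, for `D = jγ + l`, `θ = Mγ + L` the function
`exp(-2πi (τ Σ fr(x - iγ) + M x))` solves the equation with `s = (1+θ)/κ`. If `γ` is not badly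
approximable one can pass from `(j,l,M,L)` to `(j,l,M,L) + (bJ,bP,mJ,mP)` with `J |Jγ + P|` tiny and
`m` close to `b τ`, changing this function very little in `L¹`; the limits are solutions for new `D`,
and the integrals of infinitely many of their powers are kept non zero.
-/

set_option autoImplicit false

open MeasureTheory Set

namespace Pool.Agent.Results.MP_23b0f8_an.KestenDichotomy

open Pool.Agent.H382R3.KD Pool.Agent.KS6_58.KD

/-- **The exceptional arc lengths in the necessity of the Kesten condition.** For every irrational `γ`: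
they form a null set; there are none (among the irrational ones) if and only if `γ` is badly
approximable; and otherwise every interval contains uncountably many. -/
theorem result (γ : ℝ) (hγ : Irrational γ) :
    -- there is exactly one staircase for all `D`, `x₀`
    (∀ D x₀ : ℝ, ∃! p : ℤ → ℤ × ℤ, IsStaircase D γ x₀ p) ∧
    -- the Kesten condition is necessary for irrational arc lengths iff `γ` is badly approximable
    ((∀ D x₀ : ℝ, 0 < D → D < 1 → Irrational D → ∀ p : ℤ → ℤ × ℤ, IsStaircase D γ x₀ p →
      DiffractionCondition (proj D '' range p) → Kesten D γ) ↔ BadlyApprox γ) ∧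
    -- badly approximable rotation numbers: complete classification
    (BadlyApprox γ → ∀ D x₀ : ℝ, 0 < D → D < 1 → ∀ p : ℤ → ℤ × ℤ, IsStaircase D γ x₀ p →
      ((Kesten D γ ∨ ∃ r : ℚ, (r : ℝ) = D) → DiffractionCondition (proj D '' range p)) ∧
      (¬ (Kesten D γ ∨ ∃ r : ℚ, (r : ℝ) = D) → OnlyTrivialPeak (proj D '' range p))) ∧
    -- all other rotation numbers: uncountably many exceptional arc lengths in every interval
    (¬ BadlyApprox γ → ∀ u v : ℝ, 0 ≤ u → u < v → v ≤ 1 →
      ¬ {D : ℝ | u < D ∧ D < v ∧ (∀ q r : ℚ, D ≠ q * γ + r) ∧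
        ∀ (x₀ : ℝ) (p : ℤ → ℤ × ℤ), IsStaircase D γ x₀ p →
          DiffractionCondition (proj D '' range p)}.Countable) ∧
    -- for all irrational rotation numbers the exceptional arc lengths form a null set
    (∀ᵐ D : ℝ, 0 < D → D < 1 → ∀ (x₀ : ℝ) (p : ℤ → ℤ × ℤ), IsStaircase D γ x₀ p →
      OnlyTrivialPeak (proj D '' range p) ∧ ¬ DiffractionCondition (proj D '' range p)) := by
  have hirr : ∀ D : ℝ, ¬ (∃ r : ℚ, (r : ℝ) = D) → Irrational D := fun D h => h
  have h2 : BadlyApprox γ → ∀ D x₀ : ℝ, 0 < D → D < 1 → ∀ p : ℤ → ℤ × ℤ, IsStaircase D γ x₀ p →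
      ((Kesten D γ ∨ ∃ r : ℚ, (r : ℝ) = D) → DiffractionCondition (proj D '' range p)) ∧
      (¬ (Kesten D γ ∨ ∃ r : ℚ, (r : ℝ) = D) → OnlyTrivialPeak (proj D '' range p)) := by
    intro hbad D x₀ h0 h1 p hp
    refine ⟨?_, ?_⟩
    · rintro (hK | hr)
      · exact sufficiency h0 h1 hγ hK hp
      · exact rational_case h0 h1 hγ hr hp
    · intro hno
      push Not at hno
      exact onlyTrivial h0 h1 hγ (NC_of_bad hbad hno.1) (hirr D (by
        rintro ⟨r, hr⟩; exact hno.2 r hr)) hp
  have h3 : ¬ BadlyApprox γ → ∀ u v : ℝ, 0 ≤ u → u < v → v ≤ 1 →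
      ¬ {D : ℝ | u < D ∧ D < v ∧ (∀ q r : ℚ, D ≠ q * γ + r) ∧
        ∀ (x₀ : ℝ) (p : ℤ → ℤ × ℤ), IsStaircase D γ x₀ p →
          DiffractionCondition (proj D '' range p)}.Countable :=
    fun hbad u v hu huv hv => uncountable hγ hbad hu huv hv
  refine ⟨fun D x₀ => stair_unique D γ x₀, ⟨?_, ?_⟩, h2, h3, ?_⟩
  · intro hnec
    by_contra hbad
    apply h3 hbad 0 1 le_rfl one_pos le_rfl
    have hempty : {D : ℝ | 0 < D ∧ D < 1 ∧ (∀ q r : ℚ, D ≠ q * γ + r) ∧
        ∀ (x₀ : ℝ) (p : ℤ → ℤ × ℤ), IsStaircase D γ x₀ p →
          DiffractionCondition (proj D '' range p)} = ∅ := by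
      rw [Set.eq_empty_iff_forall_notMem]
      rintro D ⟨h0, h1, hind, hdc⟩
      have hD : Irrational D := by
        rintro ⟨r, hr⟩
        apply hind 0 r
        rw [← hr]; push_cast; ring
      obtain ⟨p, hp, -⟩ := stair_unique D γ 0
      obtain ⟨j, l, hjl⟩ := hnec D 0 h0 h1 hD p hp (hdc 0 p hp)
      apply hind j l
      rw [hjl]; push_cast; ring
    rw [hempty]
    exact Set.countable_empty
  · intro hbad D x₀ h0 h1 hD p hp hdc
    by_contra hK
    have := (h2 hbad D x₀ h0 h1 p hp).2 (by
      rintro (h | ⟨r, hr⟩)
      · exact hK h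
      · exact hD ⟨r, hr⟩)
    exact this.not_diffraction hdc
  · filter_upwards [ae_NC hγ, ae_irrational] with D hNC hD h0 h1 x₀ p hp
    have := onlyTrivial h0 h1 hγ (hNC h0 h1) hD hp
    exact ⟨this, this.not_diffraction⟩

end Pool.Agent.Results.MP_23b0f8_an.KestenDichotomy
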